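import Pool.Agent.H29.R2.Targets2
import Pool.Agent.H25.MZ.FG3

/-!
# Families of Artin L-functions with two dilations (FAB)
-/

set_option autoImplicit false

open Complex MeasureTheory Set Filter Topology

namespace Pool.Agent.H74.R2

open Pool.Agent.H29.R2 Pool.Agent.H28.RC Pool.Agent.H25.HK Pool.Agent.H25
open Pool.Agent.H29.RT Pool.Agent.H29.RS Pool.Agent.H25.DL Pool.Agent.H25.DP Pool.Agent.H25.MZ
open Pool.Agent.H23.GLH Pool.Agent.H48.DL Pool.Agent.H29.EX

lemma FAB_toNatC (a : ℤ) : ((a.toNat : ℂ) - ((-a).toNat : ℂ)) = (a : ℂ) := by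
  have h1 : ((a.toNat : ℤ) - ((-a).toNat : ℤ) : ℤ) = a := by
    rcases le_total 0 a with h4 | h4
    · rw [Int.toNat_of_nonneg h4, Int.toNat_of_nonpos (by omega)]; simp
    · rw [Int.toNat_of_nonneg (by omega : 0 ≤ -a), Int.toNat_of_nonpos h4]; simp
  have h2 : (((a.toNat : ℤ) - ((-a).toNat : ℤ) : ℤ) : ℂ) = ((a : ℤ) : ℂ) := by rw [h1]
  push_cast at h2
  exact h2

lemma FAB_toNatR (a : ℤ) : ((a.toNat : ℝ) - ((-a).toNat : ℝ)) = (a : ℝ) := by
  have h2 := FAB_toNatC a
  exact_mod_cast h2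

/-- (FAB) -/
theorem pf_FAB (h1 : Pool.Agent.H29.EX.T_FIR) (h2 : Pool.Agent.H29.R2.T_DNA) (h3 : T_ALL) :
    T_FAB := by
  classical
  intro k R Λ a τ c r d ε hR hr ha hND hd hd0 hd1 hd2 hd3 hε
  choose L hLn hh hL using fun i => h3 (R.rep i) (Λ i) (hR i)
  have hL : ∀ i, Agrees (L i) (Λ i) := fun i => hL i
  have ha1 : ∀ i, 1 ≤ a i := fun i => by rcases ha i with h | h <;> rw [h]; linarith
  have ha0 : ∀ i, 0 < a i := fun i => lt_of_lt_of_le one_pos (ha1 i)
  let F : Fam :=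
    { I := Σ i : Fin k, Fin (c i).toNat
      J := Σ i : Fin k, Fin (-c i).toNat
      fI := inferInstance
      fJ := inferInstance
      p := fun x => ⟨L x.1, a x.1, τ x.1, ha0 x.1⟩
      q := fun x => ⟨L x.1, a x.1, τ x.1, ha0 x.1⟩ }
  have hFd : F.d = d := by
    change ∑ x : (Σ i : Fin k, Fin (c i).toNat), a x.1 * ((L x.1).n : ℝ) -
      ∑ x : (Σ i : Fin k, Fin (-c i).toNat), a x.1 * ((L x.1).n : ℝ) = _
    rw [sum_sigma_fin (fun i => (c i).toNat) (fun i => a i * ((L i).n : ℝ)),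
      sum_sigma_fin (fun i => (-c i).toNat) (fun i => a i * ((L i).n : ℝ)),
      ← Finset.sum_sub_distrib, hd]
    refine Finset.sum_congr rfl fun i _ => ?_
    rw [hLn, nsmul_eq_mul, nsmul_eq_mul, ← sub_mul, FAB_toNatR]
    ring
  let X : Fin k → ℕ → ℂ := fun i p => ∑ l, (L i).h l p
  have hTr : R.Tr X := by
    intro i p
    have h6 := hh i p 1 le_rfl
    simp only [pow_one] at h6
    exact h6
  -- the coefficients at primes
  have hbq : ∀ p : ℕ, p.Prime → bq F.f r p = cb a τ c X r p := by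
    intro p hp
    unfold bq
    have e1 : (∑ l : F.Ix, if (F.f l).r = r then
        (F.f l).c p * (p : ℂ) ^ (-((F.f l).τ * I) : ℂ) else 0) =
        (∑ x : (Σ i : F.I, Fin (F.p i).L.n), if (F.f (Sum.inl x)).r = r then
          (F.f (Sum.inl x)).c p * (p : ℂ) ^ (-((F.f (Sum.inl x)).τ * I) : ℂ) else 0) +
        ∑ x : (Σ j : F.J, Fin (F.q j).L.n), if (F.f (Sum.inr x)).r = r then
          (F.f (Sum.inr x)).c p * (p : ℂ) ^ (-((F.f (Sum.inr x)).τ * I) : ℂ) else 0 :=
      Fintype.sum_sum_type _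
    have e2 : (∑ x : (Σ i : F.I, Fin (F.p i).L.n), if (F.f (Sum.inl x)).r = r then
          (F.f (Sum.inl x)).c p * (p : ℂ) ^ (-((F.f (Sum.inl x)).τ * I) : ℂ) else 0) =
        ∑ i : Fin k, (c i).toNat • (if a i = r then X i p * (p : ℂ) ^ (-(τ i * I) : ℂ) else 0) := by
      rw [Fintype.sum_sigma]
      change (∑ x : (Σ i : Fin k, Fin (c i).toNat), ∑ l : Fin (L x.1).n, if a x.1 = r then
        (L x.1).h l p * (p : ℂ) ^ (-(τ x.1 * I) : ℂ) else 0) = _
      rw [sum_sigma_fin (fun i => (c i).toNat) (fun i => ∑ l : Fin (L i).n, if a i = r then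
        (L i).h l p * (p : ℂ) ^ (-(τ i * I) : ℂ) else 0)]
      refine Finset.sum_congr rfl fun i _ => ?_
      by_cases hv : a i = r
      · simp only [if_pos hv]
        rw [← Finset.sum_mul]
      · simp only [if_neg hv]
        rw [Finset.sum_const_zero]
    have e3 : (∑ x : (Σ j : F.J, Fin (F.q j).L.n), if (F.f (Sum.inr x)).r = r then
          (F.f (Sum.inr x)).c p * (p : ℂ) ^ (-((F.f (Sum.inr x)).τ * I) : ℂ) else 0) =
        -∑ i : Fin k, (-c i).toNat •
          (if a i = r then X i p * (p : ℂ) ^ (-(τ i * I) : ℂ) else 0) := by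
      rw [Fintype.sum_sigma]
      change (∑ x : (Σ i : Fin k, Fin (-c i).toNat), ∑ l : Fin (L x.1).n, if a x.1 = r then
        (((ArithmeticFunction.moebius p : ℤ) : ℂ) * (L x.1).h l p) *
          (p : ℂ) ^ (-(τ x.1 * I) : ℂ) else 0) = _
      rw [sum_sigma_fin (fun i => (-c i).toNat) (fun i => ∑ l : Fin (L i).n, if a i = r then
        (((ArithmeticFunction.moebius p : ℤ) : ℂ) * (L i).h l p) *
          (p : ℂ) ^ (-(τ i * I) : ℂ) else 0), ← Finset.sum_neg_distrib]
      refine Finset.sum_congr rfl fun i _ => ?_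
      rw [← smul_neg]
      congr 1
      by_cases hv : a i = r
      · simp only [if_pos hv]
        rw [← Finset.sum_mul, ← Finset.mul_sum, ArithmeticFunction.moebius_apply_prime hp]
        push_cast
        ring
      · simp only [if_neg hv]
        rw [Finset.sum_const_zero, neg_zero]
    rw [e1, e2, e3, ← sub_eq_add_neg, ← Finset.sum_sub_distrib]
    unfold cb
    refine Finset.sum_congr rfl fun i _ => ?_
    by_cases hv : a i = r
    · rw [if_pos hv, if_pos hv, nsmul_eq_mul, nsmul_eq_mul, ← sub_mul, FAB_toNatC]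
      ring
    · rw [if_neg hv, if_neg hv, nsmul_zero, nsmul_zero, sub_zero]
  have hDen : DenR F.f r := by
    intro x₁ x₂ ε' hx1 hx12 hε'
    obtain ⟨T₀, hT₀⟩ := h2 k R a τ c X r hTr hND x₁ x₂ ε' hx1 hx12 hε'
    refine ⟨T₀, fun T hT => ?_⟩
    obtain ⟨Y, hY1, hY2, hY3⟩ := hT₀ T hT
    refine ⟨Y, hY1, hY2, hY3.trans (le_of_eq ?_)⟩
    refine Finset.sum_congr rfl fun p hp => ?_
    rw [Finset.mem_filter] at hp
    rw [hbq p hp.2]
  obtain ⟨T₀, h⟩ := h1 F r ε (by rw [hFd]; exact hd0) (by rw [hFd]; exact hd1) hr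
    (by rw [hFd]; exact hd2) (by rw [hFd]; exact hd3) (fun i => (ha i.1).symm)
    (fun j => (ha j.1).symm) hDen hε
  rw [hFd] at h
  obtain ⟨T₁, hT₁⟩ := exists_height (fun i : Fin k => a i) τ 1 one_pos (fun i => ha1 i)
  refine ⟨max (max T₀ 0) T₁, fun T hT => ?_⟩
  have hT0 : 0 ≤ T := ((le_max_right _ _).trans (le_max_left _ _)).trans hT
  obtain ⟨Z, hZ, hz⟩ := h T (((le_max_left _ _).trans (le_max_left _ _)).trans hT)
  refine ⟨Z, hZ, fun z hzZ => ?_⟩
  obtain ⟨h1', h2', h3'⟩ := hz z hzZ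
  have h1q : T / 4 ≤ z.im := by linarith
  refine ⟨h1', h2', ?_⟩
  have hp : ∀ i, 0 < (wl (a i) (τ i) z).im :=
    hT₁ T ((le_max_right _ _).trans hT) z h1q
  have hN := order_N F z (fun x => hp x.1) (fun x => hp x.1)
  have hM := order_M F z (fun x => hp x.1) (fun x => hp x.1)
  choose u b hab1 hab2 hab3 using fun i => nat_orders (hL i) (hp i)
  have hN' : analyticOrderAt F.N z =
      ((∑ i, (c i).toNat * u i + ∑ i, (-c i).toNat * b i : ℕ) : ℕ∞) := by
    rw [hN]
    change (∑ x : (Σ i : Fin k, Fin (c i).toNat), analyticOrderAt (L x.1).num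
        (wl (a x.1) (τ x.1) z)) + ∑ x : (Σ i : Fin k, Fin (-c i).toNat),
        analyticOrderAt (L x.1).den (wl (a x.1) (τ x.1) z) = _
    rw [sum_sigma_fin (fun i => (c i).toNat)
        (fun i => analyticOrderAt (L i).num (wl (a i) (τ i) z)),
      sum_sigma_fin (fun i => (-c i).toNat)
        (fun i => analyticOrderAt (L i).den (wl (a i) (τ i) z))]
    simp only [hab1, hab2, nsmul_eq_mul]
    push_cast
    rfl
  have hM' : analyticOrderAt F.M z =
      ((∑ i, (c i).toNat * b i + ∑ i, (-c i).toNat * u i : ℕ) : ℕ∞) := by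
    rw [hM]
    change (∑ x : (Σ i : Fin k, Fin (c i).toNat), analyticOrderAt (L x.1).den
        (wl (a x.1) (τ x.1) z)) + ∑ x : (Σ i : Fin k, Fin (-c i).toNat),
        analyticOrderAt (L x.1).num (wl (a x.1) (τ x.1) z) = _
    rw [sum_sigma_fin (fun i => (c i).toNat)
        (fun i => analyticOrderAt (L i).den (wl (a i) (τ i) z)),
      sum_sigma_fin (fun i => (-c i).toNat)
        (fun i => analyticOrderAt (L i).num (wl (a i) (τ i) z))]
    simp only [hab1, hab2, nsmul_eq_mul]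
    push_cast
    rfl
  have h4 : analyticOrderAt F.N z < analyticOrderAt F.M z := h3'
  rw [hN', hM', Nat.cast_lt] at h4
  have hord : ∀ i, (meromorphicOrderAt (Λ i)
      (1 / 2 + (a i : ℂ) * (z - 1 / 2) + τ i * I)).untop₀ = (u i : ℤ) - (b i : ℤ) := by
    intro i
    have e : (1 / 2 + (a i : ℂ) * (z - 1 / 2) + τ i * I : ℂ) = wl (a i) (τ i) z := by
      unfold wl
      ring
    rw [e, hab3 i, WithTop.untop₀_coe]
  simp only [hord]
  have key : ∀ i, c i * ((u i : ℤ) - (b i : ℤ)) =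
      (((c i).toNat : ℤ) * u i + ((-c i).toNat : ℤ) * b i) -
      (((c i).toNat : ℤ) * b i + ((-c i).toNat : ℤ) * u i) := by
    intro i
    rcases le_total 0 (c i) with h4 | h4
    · rw [Int.toNat_of_nonneg h4, Int.toNat_of_nonpos (by omega)]
      push_cast
      ring
    · rw [Int.toNat_of_nonneg (by omega : 0 ≤ -c i), Int.toNat_of_nonpos h4]
      push_cast
      ring
  rw [Finset.sum_congr rfl fun i _ => key i, Finset.sum_sub_distrib, Finset.sum_add_distrib,
    Finset.sum_add_distrib]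
  zify at h4
  linarith

end Pool.Agent.H74.R2
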